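import Pool.Agent.Lib.helper20.LieHomog

namespace Pool.Agent.Results.MP_4b2ccd_lc.NilpotentLie

open Pool.Agent.Lib.helper20.AlgHomog

universe u

theorem result (K : Type u) [Field K] (r n : ℕ) (hn : 1 ≤ n) :
    Homogeneous K (FreeNilLie K r n) (fun a b => ⁅a, b⁆) :=
  nil_homog hn

end Pool.Agent.Results.MP_4b2ccd_lc.NilpotentLie
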